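import Pool.Agent.Helper89.GW.Stmts

set_option autoImplicit false

open scoped ContDiff Topology
open Set Filter

namespace GW

theorem np2_range_mem (a b i : ℤ) :
    (i ∈ (do let x ← List.range (b - a + 1).toNat; pure (x : ℤ) : List ℤ)) ↔
      0 ≤ i ∧ i < b - a + 1 := by
  simp only [List.bind_eq_flatMap, List.mem_flatMap, List.mem_range, List.pure_def,
    List.mem_singleton]
  constructor
  · rintro ⟨n, hn, rfl⟩
    omega
  · rintro ⟨h1, h2⟩
    exact ⟨i.toNat, by omega, by omega⟩

theorem np2_near_mem (a b c : ℤ) : El.near c ∈ els a b ↔ a ≤ c ∧ c ≤ b := by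
  unfold els
  rw [List.mem_flatMap]
  constructor
  · rintro ⟨i, hi, h⟩
    rw [np2_range_mem] at hi
    simp at h
    omega
  · rintro ⟨h1, h2⟩
    refine ⟨c - a, ?_, ?_⟩
    · rw [np2_range_mem]; omega
    · simp

theorem np2_cell_mem (a b c : ℤ) : El.cell c ∈ els a b ↔ a ≤ c ∧ c ≤ b := by
  unfold els
  rw [List.mem_flatMap]
  constructor
  · rintro ⟨i, hi, h⟩
    rw [np2_range_mem] at hi
    simp at h
    omega
  · rintro ⟨h1, h2⟩
    refine ⟨c - a, ?_, ?_⟩
    · rw [np2_range_mem]; omega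
    · simp

theorem np2_T_mem (T : El) (t : ℝ) (hT : T.mem t) (h1 : 13 / 4 < t) (h2 : t ≤ 12) :
    T ∈ T2 ∨ T = El.near 12 := by
  cases T with
  | near k =>
    have hT : |t - k| < 1 / 4 := hT
    rw [abs_lt] at hT
    have h3 : (3 : ℝ) < k := by linarith [hT.1, hT.2]
    have h4 : (k : ℝ) < 13 := by linarith [hT.1, hT.2]
    have h5 : (3 : ℤ) < k := by exact_mod_cast h3
    have h6 : k < (13 : ℤ) := by exact_mod_cast h4
    by_cases h7 : k = 12
    · right; rw [h7]
    · left
      unfold T2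
      rw [List.mem_cons]
      right
      rw [np2_near_mem]
      omega
  | cell k =>
    obtain ⟨h3, h4⟩ := hT
    have h5 : (2 : ℝ) < k := by linarith
    have h6 : (k : ℝ) < 12 := by linarith
    have h7 : (2 : ℤ) < k := by exact_mod_cast h5
    have h8 : k < (12 : ℤ) := by exact_mod_cast h6
    left
    unfold T2
    rw [List.mem_cons]
    by_cases h9 : k = 3
    · left; rw [h9]
    · right
      rw [np2_cell_mem]
      omega

/-- elements over the hole contradict `O2` -/
theorem np2_hole (X T : El) (x t : ℝ) (hX : X.mem x) (hT : T.mem t) (h : inHole X T = true) :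
    15 / 4 ≤ x ∧ x ≤ 29 / 4 ∧ 35 / 4 ≤ t ∧ t ≤ 61 / 4 := by
  unfold inHole at h
  rw [Bool.and_eq_true, decide_eq_true_iff, decide_eq_true_iff] at h
  obtain ⟨h1, h2⟩ := h
  have hx : 15 / 4 ≤ x ∧ x ≤ 29 / 4 := by
    unfold holeX at h1
    rw [List.mem_append, List.mem_singleton] at h1
    cases X with
    | near c =>
      have hc : 4 ≤ c ∧ c ≤ 7 := by
        rcases h1 with h1 | h1
        · rw [np2_near_mem] at h1; omega
        · simp at h1; omega
      have hX : |x - c| < 1 / 4 := hX
      rw [abs_lt] at hX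
      have h3 : (4 : ℝ) ≤ c := by exact_mod_cast hc.1
      have h4 : (c : ℝ) ≤ 7 := by exact_mod_cast hc.2
      constructor <;> linarith [hX.1, hX.2]
    | cell c =>
      have hc : 4 ≤ c ∧ c ≤ 6 := by
        rcases h1 with h1 | h1
        · rw [np2_cell_mem] at h1; omega
        · simp at h1
      obtain ⟨h5, h6⟩ := hX
      have h3 : (4 : ℝ) ≤ c := by exact_mod_cast hc.1
      have h4 : (c : ℝ) ≤ 6 := by exact_mod_cast hc.2
      constructor <;> linarith
  have ht : 35 / 4 ≤ t ∧ t ≤ 61 / 4 := by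
    unfold holeT at h2
    rw [List.mem_append, List.mem_singleton] at h2
    cases T with
    | near c =>
      have hc : 9 ≤ c ∧ c ≤ 12 := by
        rcases h2 with h2 | h2
        · rw [np2_near_mem] at h2; omega
        · simp at h2; omega
      have hT : |t - c| < 1 / 4 := hT
      rw [abs_lt] at hT
      have h3 : (9 : ℝ) ≤ c := by exact_mod_cast hc.1
      have h4 : (c : ℝ) ≤ 12 := by exact_mod_cast hc.2
      constructor <;> linarith [hT.1, hT.2]
    | cell c =>
      have hc : 9 ≤ c ∧ c ≤ 11 := by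
        rcases h2 with h2 | h2
        · rw [np2_cell_mem] at h2; omega
        · simp at h2
      obtain ⟨h5, h6⟩ := hT
      have h3 : (9 : ℝ) ≤ c := by exact_mod_cast hc.1
      have h4 : (c : ℝ) ≤ 11 := by exact_mod_cast hc.2
      constructor <;> linarith
  exact ⟨hx.1, hx.2, ht.1, ht.2⟩

/-- outside of the list `allX` everything is absent -/
theorem np2_out (z : ℤ → ℤ → ℤ) (hz : ∀ c k, c < -7 ∨ 13 < c → z c k = 0) (X T : El)
    (hX : X ∉ allX) : absent z X T = true := by
  unfold absent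
  rw [List.all_eq_true]
  intro c hc
  rw [List.all_eq_true]
  intro k _
  rw [decide_eq_true_iff]
  apply hz
  cases X with
  | near a =>
    unfold allX at hX
    rw [np2_near_mem] at hX
    unfold El.nd at hc
    simp at hc
    omega
  | cell a =>
    unfold allX at hX
    rw [np2_cell_mem] at hX
    unfold El.nd at hc
    simp at hc
    omega

theorem np2_main (hE : ST_ELEM) (hS : ST_SIGN) (hQ : ST_QUAD) (hM : ST_MU)
    (z : ℤ → ℤ → ℤ) (c0 Z : ℤ) (hsup : SupI z)
    (hz : ∀ c k, c < -7 ∨ 13 < c → z c k = 0) (hc1 : -8 ≤ c0) (hc2 : c0 ≤ 14)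
    (hq : ∀ i j : ℤ, |i| ≤ 1 → |j| ≤ 1 → z (c0 + i) (12 + j) = Z - 10 * |i| + 2 * |j|)
    (chk : (allX.all fun X => T2.all fun T => inHole X T || own z X T) = true)
    (chk12 : (allX.all fun X =>
      inHole X (El.near 12) || decide (X = El.near c0) || ownS z X (El.near 12)) = true)
    (x t : ℝ) (hO : O2 (x, t)) (ht : t ≤ 12) (hpos : 0 < sp z (x, t))
    (hne : (x, t) ≠ ((c0 : ℝ), 12)) : dX (sp z) (x, t) ≠ 0 ∨ dT (sp z) (x, t) ≠ 0 := by
  obtain ⟨X, hX⟩ := hE.1 x
  obtain ⟨T, hT⟩ := hE.1 t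
  have hsign := hS z X T x t hsup hX hT
  obtain ⟨s1, s2, s3, s4, s5, -, -⟩ := hsign
  have habs : absent z X T = true → False := fun h => by
    have := s5 h
    linarith
  have hXm : X ∈ allX := by
    by_contra h
    exact habs (np2_out z hz X T h)
  have hhole : inHole X T = true → False := fun h => by
    have := np2_hole X T x t hX hT h
    exact hO.2.2 this
  have hs1 : sSame [z] X T = true → dX (sp z) (x, t) ≠ 0 := by
    intro h
    unfold sSame at h
    simp only [List.all_cons, List.all_nil, Bool.and_true, Bool.or_eq_true] at h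
    rcases h with h | h
    · exact (s1 h).ne'
    · exact (s2 h).ne
  have hr1 : rSame [z] X T = true → dT (sp z) (x, t) ≠ 0 := by
    intro h
    unfold rSame at h
    simp only [List.all_cons, List.all_nil, Bool.and_true, Bool.or_eq_true] at h
    rcases h with h | h
    · exact (s3 h).ne'
    · exact (s4 h).ne
  rcases np2_T_mem T t hT hO.1 ht with hTm | hTm
  · rw [List.all_eq_true] at chk
    have h1 := chk X hXm
    rw [List.all_eq_true] at h1
    have h2 := h1 T hTm
    rw [Bool.or_eq_true] at h2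
    rcases h2 with h2 | h2
    · exact absurd h2 hhole
    · unfold own at h2
      rw [Bool.or_eq_true, Bool.or_eq_true] at h2
      rcases h2 with (h2 | h2) | h2
      · exact absurd h2 habs
      · exact Or.inl (hs1 h2)
      · exact Or.inr (hr1 h2)
  · rw [List.all_eq_true] at chk12
    have h1 := chk12 X hXm
    rw [← hTm] at h1
    rw [Bool.or_eq_true, Bool.or_eq_true] at h1
    rcases h1 with (h1 | h1) | h1
    · exact absurd h1 hhole
    · rw [decide_eq_true_iff] at h1
      subst h1 hTm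
      have hX : |x - c0| < 1 / 4 := hX
      have hT' : |t - ((12 : ℤ) : ℝ)| < 1 / 4 := hT
      have h12 : ((12 : ℤ) : ℝ) = 12 := by norm_num
      rw [h12] at hT'
      obtain ⟨q1, q2⟩ := hQ z c0 Z 10 2 hsup hc1 hc2 hq x t (by linarith) (by linarith)
      by_contra hcon
      push Not at hcon
      obtain ⟨e1, e2⟩ := hcon
      rw [e1] at q1
      rw [e2] at q2
      push_cast at q1 q2
      have m1 : mu (x - c0) = 1 / 2 := by linarith
      have m2 : mu (t - 12) = 1 / 2 := by linarith
      have m3 := hM.2.2.2.2.2.2.1 (x - c0) hX m1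
      have m4 := hM.2.2.2.2.2.2.1 (t - 12) hT' m2
      apply hne
      rw [Prod.mk.injEq]
      constructor <;> linarith
    · unfold ownS at h1
      rw [Bool.or_eq_true] at h1
      rcases h1 with h1 | h1
      · exact absurd h1 habs
      · exact Or.inl (hs1 h1)

theorem np2_gen (hE : ST_ELEM) (hS : ST_SIGN) (hR : ST_SREF) (hQ : ST_QUAD) (hM : ST_MU)
    (z : ℤ → ℤ → ℤ) (c0 Z : ℤ) (hsup : SupI z) (hsym : ∀ c k, z c (24 - k) = z c k)
    (hz : ∀ c k, c < -7 ∨ 13 < c → z c k = 0) (hc1 : -8 ≤ c0) (hc2 : c0 ≤ 14)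
    (hq : ∀ i j : ℤ, |i| ≤ 1 → |j| ≤ 1 → z (c0 + i) (12 + j) = Z - 10 * |i| + 2 * |j|)
    (chk : (allX.all fun X => T2.all fun T => inHole X T || own z X T) = true)
    (chk12 : (allX.all fun X =>
      inHole X (El.near 12) || decide (X = El.near c0) || ownS z X (El.near 12)) = true)
    (p : ℝ × ℝ) (hO : O2 p) (hpos : 0 < sp z p)
    (hne : p ≠ ((c0 : ℝ), 12)) : dX (sp z) p ≠ 0 ∨ dT (sp z) p ≠ 0 := by
  obtain ⟨x, t⟩ := p
  by_cases ht : t ≤ 12
  · exact np2_main hE hS hQ hM z c0 Z hsup hz hc1 hc2 hq chk chk12 x t hO ht hpos hne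
  · push Not at ht
    obtain ⟨r1, r2, r3⟩ := hR z hsup hsym x t
    have hO' : O2 (x, 24 - t) := by
      obtain ⟨o1, o2, o3⟩ := hO
      simp only at o1 o2 o3
      refine ⟨by simp only; linarith, by simp only; linarith, ?_⟩
      rintro ⟨a1, a2, a3, a4⟩
      simp only at a1 a2 a3 a4
      exact o3 ⟨a1, a2, by linarith, by linarith⟩
    have h := np2_main hE hS hQ hM z c0 Z hsup hz hc1 hc2 hq chk chk12 x (24 - t) hO'
      (by linarith) (by rw [r1]; exact hpos) (by
        intro h
        rw [Prod.mk.injEq] at h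
        linarith [h.2])
    rw [r2, r3] at h
    rcases h with h | h
    · exact Or.inl h
    · exact Or.inr (fun h' => h (by rw [h', neg_zero]))

theorem np2_tg_zero (T : List (List ℤ)) (c k : ℤ) (h : c < -7 ∨ 13 < c) : tg T c k = 0 := by
  unfold tg
  rw [if_neg (by omega)]

set_option maxRecDepth 100000 in
theorem np2_chk2A : chk2A = true := by decide +kernel

set_option maxRecDepth 100000 in
theorem np2_chk12A : chk12A = true := by decide +kernel

theorem st_NP2A (hD : ST_DAT) (hE : ST_ELEM) (hS : ST_SIGN) (hR : ST_SREF) (hQ : ST_QUAD)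
    (hQD : ST_QDAT) (hM : ST_MU) : ST_NP2A := by
  intro p hO hpos hne
  refine np2_gen hE hS hR hQ hM aI' 11 266 hD.1.2.1 hD.2.1.2.1 ?_ (by norm_num) (by norm_num)
    (fun i j hi hj => (hQD i j hi hj).1) np2_chk2A np2_chk12A p hO hpos ?_
  · intro c k h
    unfold aI'
    split_ifs
    · rfl
    · exact np2_tg_zero _ c k h
  · norm_num
    exact hne

end GW
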