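import Pool.Agent.Helper22.GW.NP2A

set_option autoImplicit false

open scoped ContDiff Topology
open Set Filter

namespace GW

set_option maxRecDepth 100000 in
theorem np2_chk2B : chk2B = true := by decide +kernel

set_option maxRecDepth 100000 in
theorem np2_chk12B : chk12B = true := by decide +kernel

theorem st_NP2B (hD : ST_DAT) (hE : ST_ELEM) (hS : ST_SIGN) (hR : ST_SREF) (hQ : ST_QUAD)
    (hQD : ST_QDAT) (hM : ST_MU) : ST_NP2B := by
  intro p hO hpos hne
  refine np2_gen hE hS hR hQ hM bI (-5) 278 hD.1.2.2.1 hD.2.1.2.2.1 ?_ (by norm_num) (by norm_num)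
    (fun i j hi hj => (hQD i j hi hj).2.1) np2_chk2B np2_chk12B p hO hpos ?_
  · intro c k h
    exact np2_tg_zero _ c k h
  · norm_num
    exact hne

end GW
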